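import Mathlib

set_option autoImplicit false

/-!
# Amortised pointer changes for flarb operations

The total number of pointer changes of `n` flarbs is not `O(n)`: it can be of order `n log n`.
-/

namespace Pool.Agent.Results.MP_5c307f_lc.FlarbSuperlinear

open Finset

/-- Binary trees whose nodes carry natural numbers as names: `node l x r` is the tree with root
`x`, left subtree `l` and right subtree `r`. -/
inductive BT : Type
  | nil : BT
  | node : BT → ℕ → BT → BT

namespace BT

/-- The root of a tree, if there is one. -/
def root? : BT → Option ℕ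
  | nil => none
  | node _ x _ => some x

/-- The set of nodes of a tree. -/
def nodes : BT → Finset ℕ
  | nil => ∅
  | node l x r => insert x (l.nodes ∪ r.nodes)

/-- The relationship that `x` has the root of `t` as its left child (`s = false`) or as its right
child (`s = true`); no relationship if `t` is empty. -/
def link (x : ℕ) (s : Bool) : BT → Finset (ℕ × Bool × ℕ)
  | nil => ∅
  | node _ y _ => {(x, s, y)}

/-- The set of parent/child relationships of a tree: `(x, false, y)` means that `y` is the left
child of `x`, and `(x, true, y)` that `y` is the right child of `x`. -/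
def rels : BT → Finset (ℕ × Bool × ℕ)
  | nil => ∅
  | node l x r => (link x false l ∪ l.rels) ∪ (link x true r ∪ r.rels)

end BT

open BT

/-- `S` is the node set of an anchored subtree of `T`: a set of nodes of `T` which contains the
root of `T` (if `T` is not empty) and with each other node its parent. -/
def Anchored (T : BT) (S : Finset ℕ) : Prop :=
  S ⊆ T.nodes ∧ (∀ x, T.root? = some x → x ∈ S) ∧
    ∀ p s c, (p, s, c) ∈ T.rels → c ∈ S → p ∈ S

/-- The nodes of an anchored subtree `S` of a tree in in-order, each paired with the subtree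
which hangs off `S` between it and the previous one, together with the subtree which hangs off
`S` behind the last one. -/
def decomp (S : Finset ℕ) : BT → List (BT × ℕ) × BT
  | nil => ([], nil)
  | node l x r =>
      if x ∈ S then ((decomp S l).1 ++ ((decomp S l).2, x) :: (decomp S r).1, (decomp S r).2)
      else ([], node l x r)

/-- The tree with rightmost path `x₁, x₂, …, x_m`, in which `x_i` has left subtree `a_i` and
`x_m` has right subtree `b`. -/
def build : List (BT × ℕ) → BT → BT
  | [], b => b
  | (a, x) :: L, b => node a x (build L b)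

/-- The flarb of the anchored subtree `S` of `T`, with new root `r`. -/
def flarb (T : BT) (S : Finset ℕ) (r : ℕ) : BT :=
  build (decomp (insert r S) (node T r nil)).1 (decomp (insert r S) (node T r nil)).2

/-- The number of parent/left-child and parent/right-child relationships that change. -/
def cost (T T' : BT) : ℕ := (symmDiff T.rels T'.rels).card

/-- `FlarbSeq n T c`: a sequence of `n` flarbs starting from the empty tree leads to `T`, with
total cost `c`. The node added by the `i`-th flarb is `i - 1`. -/
inductive FlarbSeq : ℕ → BT → ℕ → Prop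
  | zero : FlarbSeq 0 nil 0
  | succ {n : ℕ} {T : BT} {c : ℕ} (h : FlarbSeq n T c) (S : Finset ℕ) (hS : Anchored T S) :
      FlarbSeq (n + 1) (flarb T S n) (c + cost T (flarb T S n))

/-! ### Left relationships -/

/-- The pair `(x, y)` if `y` is the root of `t`. -/
def lk (x : ℕ) : BT → Finset (ℕ × ℕ)
  | nil => ∅
  | node _ y _ => {(x, y)}

/-- Left-child relationships of a tree. -/
def lrel : BT → Finset (ℕ × ℕ)
  | nil => ∅
  | node l x r => (lk x l ∪ lrel l) ∪ lrel r

/-- Left-child relationships of a list of pairs. -/
def LL : List (BT × ℕ) → Finset (ℕ × ℕ)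
  | [] => ∅
  | (a, x) :: L => (lk x a ∪ lrel a) ∪ LL L

theorem mem_lrel (T : BT) (x y : ℕ) : (x, false, y) ∈ T.rels ↔ (x, y) ∈ lrel T := by
  induction T with
  | nil => simp [rels, lrel]
  | node l z r ihl ihr =>
    simp only [rels, lrel, mem_union, ihl, ihr]
    have h1 : (x, false, y) ∈ link z false l ↔ (x, y) ∈ lk z l := by
      cases l <;> simp [link, lk]
    have h2 : (x, false, y) ∉ link z true r := by
      cases r <;> simp [link]
    simp only [h1]
    tauto

theorem cost_ge (T T' : BT) : (lrel T \ lrel T').card ≤ cost T T' := by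
  unfold cost
  apply Finset.card_le_card_of_injOn (fun p => (p.1, false, p.2))
  · rintro ⟨x, y⟩ hp
    simp only [mem_coe, mem_sdiff] at hp
    simp only [mem_coe, mem_symmDiff, mem_lrel]
    exact Or.inl hp
  · rintro ⟨x, y⟩ _ ⟨x', y'⟩ _ h
    simp only [Prod.mk.injEq, true_and] at h
    simp [h.1, h.2]

theorem lrel_build (A : List (BT × ℕ)) (b : BT) : lrel (build A b) = LL A ∪ lrel b := by
  induction A with
  | nil => simp [build, LL]
  | cons e A ih =>
    obtain ⟨a, x⟩ := e
    simp only [build, lrel, LL, ih, union_assoc]

theorem LL_append (A B : List (BT × ℕ)) : LL (A ++ B) = LL A ∪ LL B := by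
  induction A with
  | nil => simp [LL]
  | cons e A ih =>
    obtain ⟨a, x⟩ := e
    simp only [List.cons_append, LL, ih, union_assoc]

theorem build_append (A B : List (BT × ℕ)) (b : BT) : build (A ++ B) b = build A (build B b) := by
  induction A with
  | nil => rfl
  | cons e A ih =>
    obtain ⟨a, x⟩ := e
    simp only [List.cons_append, build, ih]

/-! ### Opening lists -/

/-- The result of decomposing the tree with rightmost path `A`, all of whose nodes are in `S`. -/
def openL (S : Finset ℕ) : List (BT × ℕ) → List (BT × ℕ)
  | [] => []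
  | (a, x) :: A => (decomp S a).1 ++ ((decomp S a).2, x) :: openL S A

theorem openL_append (S : Finset ℕ) (A B : List (BT × ℕ)) :
    openL S (A ++ B) = openL S A ++ openL S B := by
  induction A with
  | nil => rfl
  | cons e A ih =>
    obtain ⟨a, x⟩ := e
    simp [openL, ih]

theorem decomp_build (S : Finset ℕ) (A : List (BT × ℕ)) (b : BT) (hA : ∀ e ∈ A, e.2 ∈ S) :
    decomp S (build A b) = (openL S A ++ (decomp S b).1, (decomp S b).2) := by
  induction A with
  | nil => simp [build, openL]
  | cons e A ih =>
    obtain ⟨a, x⟩ := e
    have hx : x ∈ S := hA (a, x) (by simp)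
    have := ih (fun e he => hA e (by simp [he]))
    simp [build, decomp, hx, openL, this]

theorem decomp_congr (S S' : Finset ℕ) (T : BT) (h : ∀ x ∈ T.nodes, (x ∈ S ↔ x ∈ S')) :
    decomp S T = decomp S' T := by
  induction T with
  | nil => rfl
  | node l z r ihl ihr =>
    have h1 := ihl (fun x hx => h x (by simp [nodes, hx]))
    have h2 := ihr (fun x hx => h x (by simp [nodes, hx]))
    have h3 := h z (by simp [nodes])
    simp only [decomp, h1, h2, h3]

theorem openL_congr (S S' : Finset ℕ) (A : List (BT × ℕ))
    (h : ∀ e ∈ A, ∀ x ∈ e.1.nodes, (x ∈ S ↔ x ∈ S')) : openL S A = openL S' A := by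
  induction A with
  | nil => rfl
  | cons e A ih =>
    obtain ⟨a, x⟩ := e
    have h1 := decomp_congr S S' a (h (a, x) (by simp))
    have h2 := ih (fun e he => h e (by simp [he]))
    simp [openL, h1, h2]

theorem mem_nodes_of_rels (T : BT) (p : ℕ) (s : Bool) (c : ℕ) (h : (p, s, c) ∈ T.rels) :
    p ∈ T.nodes ∧ c ∈ T.nodes := by
  induction T with
  | nil => simp [rels] at h
  | node l z r ihl ihr =>
    simp only [rels, mem_union] at h
    simp only [nodes, mem_insert, mem_union]
    rcases h with (h | h) | (h | h)
    · cases l with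
      | nil => simp [link] at h
      | node a y b =>
        simp only [link, mem_singleton, Prod.mk.injEq] at h
        simp [h.1, h.2.2, nodes]
    · have := ihl h
      tauto
    · cases r with
      | nil => simp [link] at h
      | node a y b =>
        simp only [link, mem_singleton, Prod.mk.injEq] at h
        simp [h.1, h.2.2, nodes]
    · have := ihr h
      tauto

theorem mem_nodes_build (A : List (BT × ℕ)) (b : BT) (x : ℕ) :
    x ∈ (build A b).nodes ↔ (∃ e ∈ A, x = e.2 ∨ x ∈ e.1.nodes) ∨ x ∈ b.nodes := by
  induction A with
  | nil => simp [build]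
  | cons e A ih =>
    obtain ⟨a, y⟩ := e
    simp only [build, nodes, mem_insert, mem_union, ih, List.mem_cons, exists_eq_or_imp, or_assoc]

theorem rels_build (A : List (BT × ℕ)) (b : BT) (p : ℕ) (s : Bool) (c : ℕ)
    (h : (p, s, c) ∈ (build A b).rels) :
    (∃ e ∈ A, p = e.2) ∨ (∃ e ∈ A, (p, s, c) ∈ e.1.rels) ∨ (p, s, c) ∈ b.rels := by
  induction A with
  | nil => exact Or.inr (Or.inr h)
  | cons e A ih =>
    obtain ⟨a, y⟩ := e
    simp only [build, rels, mem_union] at h
    rcases h with (h | h) | (h | h)
    · left
      refine ⟨(a, y), by simp, ?_⟩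
      cases a with
      | nil => simp [link] at h
      | node a' y' b' =>
        simp only [link, mem_singleton, Prod.mk.injEq] at h
        exact h.1
    · right; left
      exact ⟨(a, y), by simp, h⟩
    · left
      refine ⟨(a, y), by simp, ?_⟩
      cases hb : build A b with
      | nil => simp [hb, link] at h
      | node a' y' b' =>
        simp only [hb, link, mem_singleton, Prod.mk.injEq] at h
        exact h.1
    · rcases ih h with ⟨e, he, h1⟩ | ⟨e, he, h1⟩ | h1
      · exact Or.inl ⟨e, by simp [he], h1⟩
      · exact Or.inr (Or.inl ⟨e, by simp [he], h1⟩)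
      · exact Or.inr (Or.inr h1)

theorem root_build (A : List (BT × ℕ)) (b : BT) (x : ℕ) (h : (build A b).root? = some x) :
    (∃ e ∈ A, x = e.2) ∨ b.root? = some x := by
  cases A with
  | nil => exact Or.inr h
  | cons e A =>
    obtain ⟨a, y⟩ := e
    simp only [build, root?, Option.some.injEq] at h
    exact Or.inl ⟨(a, y), by simp, h.symm⟩

theorem decomp_hanging (S : Finset ℕ) (T : BT) (h : ∀ x, T.root? = some x → x ∉ S) :
    decomp S T = ([], T) := by
  cases T with
  | nil => rfl
  | node l x r =>
    have := h x rfl
    simp [decomp, this]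

/-! ### Steps of a context -/

/-- One simultaneous opening of the nodes of a rightmost path `A` with result `A'`, in which at
least `d` left-child relationships are lost. -/
structure Step (lo hi : ℕ) (A A' : List (BT × ℕ)) (d : ℕ) (S : Finset ℕ) : Prop where
  rng : ∀ s ∈ S, lo ≤ s ∧ s < hi
  spine : ∀ e ∈ A, e.2 ∈ S
  labs : ∀ e ∈ A, ∀ x ∈ e.1.nodes, lo ≤ x ∧ x < hi
  sub : ∀ s ∈ S, ∃ e ∈ A, s = e.2 ∨ s ∈ e.1.nodes
  closed : ∀ e ∈ A, ∀ p s c, (p, s, c) ∈ e.1.rels → c ∈ S → p ∈ S
  opn : openL S A = A'
  ll : ∀ p ∈ LL A, lo ≤ p.1 ∧ p.1 < hi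
  ll' : ∀ p ∈ LL A', lo ≤ p.1 ∧ p.1 < hi
  lost : d ≤ (LL A \ LL A').card

theorem Step.append {lo mid hi : ℕ} {A A' B B' : List (BT × ℕ)} {d e : ℕ} {S S' : Finset ℕ}
    (h1 : Step lo mid A A' d S) (h2 : Step mid hi B B' e S') (hlm : lo ≤ mid) (hmh : mid ≤ hi) :
    Step lo hi (A ++ B) (A' ++ B') (d + e) (S ∪ S') where
  rng := by
    intro s hs
    rcases mem_union.mp hs with hs | hs
    · have := h1.rng s hs; omega
    · have := h2.rng s hs; omega
  spine := by
    intro x hx
    rcases List.mem_append.mp hx with hx | hx
    · exact mem_union_left _ (h1.spine x hx)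
    · exact mem_union_right _ (h2.spine x hx)
  labs := by
    intro x hx y hy
    rcases List.mem_append.mp hx with hx | hx
    · have := h1.labs x hx y hy; omega
    · have := h2.labs x hx y hy; omega
  sub := by
    intro s hs
    rcases mem_union.mp hs with hs | hs
    · obtain ⟨x, hx, h⟩ := h1.sub s hs
      exact ⟨x, by simp [hx], h⟩
    · obtain ⟨x, hx, h⟩ := h2.sub s hs
      exact ⟨x, by simp [hx], h⟩
  closed := by
    intro x hx p s c hr hc
    have hn := (mem_nodes_of_rels _ _ _ _ hr).2
    rcases List.mem_append.mp hx with hx | hx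
    · have hb := h1.labs x hx c hn
      rcases mem_union.mp hc with hc | hc
      · exact mem_union_left _ (h1.closed x hx p s c hr hc)
      · have := h2.rng c hc; omega
    · have hb := h2.labs x hx c hn
      rcases mem_union.mp hc with hc | hc
      · have := h1.rng c hc; omega
      · exact mem_union_right _ (h2.closed x hx p s c hr hc)
  opn := by
    rw [openL_append]
    have e1 : openL (S ∪ S') A = openL S A := by
      apply openL_congr
      intro x hx y hy
      have hb := h1.labs x hx y hy
      constructor
      · intro h
        rcases mem_union.mp h with h | h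
        · exact h
        · have := h2.rng y h; omega
      · intro h; exact mem_union_left _ h
    have e2 : openL (S ∪ S') B = openL S' B := by
      apply openL_congr
      intro x hx y hy
      have hb := h2.labs x hx y hy
      constructor
      · intro h
        rcases mem_union.mp h with h | h
        · have := h1.rng y h; omega
        · exact h
      · intro h; exact mem_union_right _ h
    rw [e1, e2, h1.opn, h2.opn]
  ll := by
    intro p hp
    rw [LL_append] at hp
    rcases mem_union.mp hp with hp | hp
    · have := h1.ll p hp; omega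
    · have := h2.ll p hp; omega
  ll' := by
    intro p hp
    rw [LL_append] at hp
    rcases mem_union.mp hp with hp | hp
    · have := h1.ll' p hp; omega
    · have := h2.ll' p hp; omega
  lost := by
    have hdis : Disjoint (LL A \ LL A') (LL B \ LL B') := by
      rw [Finset.disjoint_left]
      intro p hp hp'
      have a1 := h1.ll p (mem_sdiff.mp hp).1
      have a2 := h2.ll p (mem_sdiff.mp hp').1
      omega
    have hsub : (LL A \ LL A') ∪ (LL B \ LL B') ⊆ LL (A ++ B) \ LL (A' ++ B') := by
      intro p hp
      rw [LL_append, LL_append, mem_sdiff, mem_union, mem_union]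
      rcases mem_union.mp hp with hp | hp
      · obtain ⟨q1, q2⟩ := mem_sdiff.mp hp
        refine ⟨Or.inl q1, ?_⟩
        rintro (h | h)
        · exact q2 h
        · have a1 := h1.ll p q1
          have a2 := h2.ll' p h
          omega
      · obtain ⟨q1, q2⟩ := mem_sdiff.mp hp
        refine ⟨Or.inr q1, ?_⟩
        rintro (h | h)
        · have a1 := h2.ll p q1
          have a2 := h1.ll' p h
          omega
        · exact q2 h
    calc d + e ≤ (LL A \ LL A').card + (LL B \ LL B').card := add_le_add h1.lost h2.lost
      _ = ((LL A \ LL A') ∪ (LL B \ LL B')).card := (card_union_of_disjoint hdis).symm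
      _ ≤ _ := card_le_card hsub

theorem Step.mono {lo hi lo' hi' : ℕ} {A A' : List (BT × ℕ)} {d : ℕ} {S : Finset ℕ}
    (h : Step lo hi A A' d S) (h1 : lo' ≤ lo) (h2 : hi ≤ hi') : Step lo' hi' A A' d S where
  rng := fun s hs => by have := h.rng s hs; omega
  spine := h.spine
  labs := fun x hx y hy => by have := h.labs x hx y hy; omega
  sub := h.sub
  closed := h.closed
  opn := h.opn
  ll := fun p hp => by have := h.ll p hp; omega
  ll' := fun p hp => by have := h.ll' p hp; omega
  lost := h.lost

/-- `n` nodes without children. -/
def leaves (m n : ℕ) : List (BT × ℕ) := (List.range' m n).map (fun x => (nil, x))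

/-- A rightmost path of `n` nodes without left children. -/
def chain (m n : ℕ) : BT := build (leaves m n) nil

theorem leaves_zero (m : ℕ) : leaves m 0 = [] := rfl

theorem leaves_succ (m n : ℕ) : leaves m (n + 1) = (nil, m) :: leaves (m + 1) n := by
  simp [leaves, List.range'_succ]

theorem leaves_add (m a b : ℕ) : leaves m (a + b) = leaves m a ++ leaves (m + a) b := by
  simp only [leaves, ← List.map_append]
  congr 1
  exact (List.range'_append_1 (s := m) (m := a) (n := b)).symm

theorem chain_zero (m : ℕ) : chain m 0 = nil := rfl

theorem chain_succ (m n : ℕ) : chain m (n + 1) = node nil m (chain (m + 1) n) := by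
  simp [chain, leaves_succ, build]

theorem mem_leaves (m n : ℕ) (e : BT × ℕ) (h : e ∈ leaves m n) :
    e.1 = nil ∧ m ≤ e.2 ∧ e.2 < m + n := by
  simp only [leaves, List.mem_map, List.mem_range'_1] at h
  obtain ⟨x, hx, rfl⟩ := h
  exact ⟨rfl, hx.1, hx.2⟩

theorem leaves_mem (m n x : ℕ) (h1 : m ≤ x) (h2 : x < m + n) : (nil, x) ∈ leaves m n := by
  simp only [leaves, List.mem_map, List.mem_range'_1]
  exact ⟨x, ⟨h1, h2⟩, rfl⟩

theorem LL_leaves (m n : ℕ) : LL (leaves m n) = ∅ := by
  induction n generalizing m with
  | zero => rfl
  | succ n ih => simp [leaves_succ, LL, lk, lrel, ih]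

theorem openL_leaves (S : Finset ℕ) (m n : ℕ) : openL S (leaves m n) = leaves m n := by
  induction n generalizing m with
  | zero => rfl
  | succ n ih => simp [leaves_succ, openL, decomp, ih]

theorem mem_nodes_chain (m n x : ℕ) : x ∈ (chain m n).nodes ↔ m ≤ x ∧ x < m + n := by
  unfold chain
  rw [mem_nodes_build]
  simp only [nodes, notMem_empty, or_false]
  constructor
  · rintro ⟨e, he, h⟩
    obtain ⟨h1, h2⟩ := mem_leaves m n e he
    rcases h with h | h
    · rw [h]; exact h2
    · rw [h1] at h; simp [nodes] at h
  · rintro ⟨h1, h2⟩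
    exact ⟨(nil, x), leaves_mem m n x h1 h2, Or.inl rfl⟩

theorem lrel_chain (m n : ℕ) : lrel (chain m n) = ∅ := by
  unfold chain
  rw [lrel_build, LL_leaves]
  simp [lrel]

theorem rels_chain (m n p : ℕ) (s : Bool) (c : ℕ) (h : (p, s, c) ∈ (chain m n).rels) :
    m < c ∧ c < m + n := by
  induction n generalizing m with
  | zero => simp [chain_zero, rels] at h
  | succ n ih =>
    rw [chain_succ] at h
    simp only [rels, mem_union, link, notMem_empty, false_or] at h
    rcases h with h | h
    · cases n with
      | zero => simp [chain_zero] at h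
      | succ n =>
        rw [chain_succ] at h
        simp only [mem_singleton, Prod.mk.injEq] at h
        omega
    · have := ih (m + 1) h
      omega

theorem root_chain (m n x : ℕ) (h : (chain m n).root? = some x) : x = m := by
  cases n with
  | zero => simp [chain_zero, root?] at h
  | succ n =>
    rw [chain_succ] at h
    simp only [root?, Option.some.injEq] at h
    exact h.symm

theorem step_nil (lo hi : ℕ) : Step lo hi [] [] 0 ∅ where
  rng := by simp
  spine := by simp
  labs := by simp
  sub := by simp
  closed := by simp
  opn := rfl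
  ll := by simp [LL]
  ll' := by simp [LL]
  lost := by simp

theorem step_leaves (m n : ℕ) : Step m (m + n) (leaves m n) (leaves m n) 0 (Ico m (m + n)) where
  rng := by intro s hs; exact mem_Ico.mp hs
  spine := by
    intro e he
    exact mem_Ico.mpr (mem_leaves m n e he).2
  labs := by
    intro e he x hx
    rw [(mem_leaves m n e he).1] at hx
    simp [nodes] at hx
  sub := by
    intro s hs
    have := mem_Ico.mp hs
    exact ⟨(nil, s), leaves_mem m n s this.1 this.2, Or.inl rfl⟩
  closed := by
    intro e he p s c h
    rw [(mem_leaves m n e he).1] at h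
    simp [rels] at h
  opn := openL_leaves _ m n
  ll := by simp [LL_leaves]
  ll' := by simp [LL_leaves]
  lost := by simp

theorem step_chain (j n u : ℕ) (hu : j + (n + 1) ≤ u) :
    Step j (u + 1) [(chain j (n + 1), u)] [(nil, j), (chain (j + 1) n, u)] 1 {j, u} where
  rng := by
    intro s hs
    simp only [mem_insert, mem_singleton] at hs
    omega
  spine := by simp
  labs := by
    intro e he x hx
    simp only [List.mem_singleton] at he
    subst he
    have := (mem_nodes_chain j (n + 1) x).mp hx
    omega
  sub := by
    intro s hs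
    refine ⟨(chain j (n + 1), u), by simp, ?_⟩
    simp only [mem_insert, mem_singleton] at hs
    rcases hs with rfl | rfl
    · right
      rw [mem_nodes_chain]; omega
    · left; rfl
  closed := by
    intro e he p s c h hc
    simp only [List.mem_singleton] at he
    subst he
    have := rels_chain j (n + 1) p s c h
    simp only [mem_insert, mem_singleton] at hc
    omega
  opn := by
    have h1 : decomp {j, u} (chain (j + 1) n) = ([], chain (j + 1) n) := by
      apply decomp_hanging
      intro x hx
      have h2 : x = j + 1 := root_chain _ _ _ hx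
      cases n with
      | zero => simp [chain_zero, root?] at hx
      | succ n =>
        simp only [mem_insert, mem_singleton]
        omega
    simp [openL, chain_succ, decomp, h1]
  ll := by
    intro p hp
    simp only [LL, chain_succ, lk, lrel, lrel_chain, union_empty, mem_singleton] at hp
    subst hp
    simp only
    omega
  ll' := by
    intro p hp
    simp only [LL, lk, lrel, lrel_chain, union_empty, empty_union] at hp
    cases n with
    | zero => simp [chain_zero] at hp
    | succ n =>
      simp only [chain_succ, mem_singleton] at hp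
      subst hp
      simp only
      omega
  lost := by
    have : (u, j) ∈ LL [(chain j (n + 1), u)] \ LL [(nil, j), (chain (j + 1) n, u)] := by
      simp only [mem_sdiff, LL, chain_succ, lk, lrel, lrel_chain, union_empty, empty_union,
        mem_singleton, true_and]
      cases n with
      | zero => simp [chain_zero]
      | succ n => simp [chain_succ]
    exact card_pos.mpr ⟨_, this⟩

/-! ### Flarbs in a context -/

theorem op_one {m : ℕ} {A A' : List (BT × ℕ)} {d c : ℕ} {S : Finset ℕ}
    (hst : Step 0 m A A' d S) (h : FlarbSeq m (build A nil) c) :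
    ∃ c', c + d ≤ c' ∧ FlarbSeq (m + 1) (build (A' ++ leaves m 1) nil) c' := by
  have hanch : Anchored (build A nil) S := by
    refine ⟨?_, ?_, ?_⟩
    · intro s hs
      rw [mem_nodes_build]
      exact Or.inl (hst.sub s hs)
    · intro x hx
      rcases root_build A nil x hx with ⟨e, he, rfl⟩ | hx
      · exact hst.spine e he
      · simp [root?] at hx
    · intro p s c' hr hc
      rcases rels_build A nil p s c' hr with ⟨e, he, rfl⟩ | ⟨e, he, hr⟩ | hr
      · exact hst.spine e he
      · exact hst.closed e he p s c' hr hc
      · simp [rels] at hr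
  have hfl : flarb (build A nil) S m = build (A' ++ leaves m 1) nil := by
    have h1 : decomp (insert m S) (build A nil) = (A', nil) := by
      rw [decomp_build (insert m S) A nil (fun e he => mem_insert_of_mem (hst.spine e he))]
      have h2 : openL (insert m S) A = A' := by
        rw [← hst.opn]
        apply openL_congr
        intro e he x hx
        have := hst.labs e he x hx
        rw [mem_insert]
        constructor
        · rintro (h | h)
          · omega
          · exact h
        · exact Or.inr
      simp [h2, decomp]
    simp [flarb, decomp, h1, leaves_succ, leaves_zero]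
  refine ⟨c + cost (build A nil) (flarb (build A nil) S m), ?_, ?_⟩
  · apply Nat.add_le_add_left
    refine le_trans hst.lost (le_trans ?_ (cost_ge _ _))
    rw [hfl, lrel_build, lrel_build, LL_append, LL_leaves]
    simp [lrel]
  · rw [← hfl]
    exact FlarbSeq.succ h S hanch

theorem op_two {m n : ℕ} {A A' : List (BT × ℕ)} {d c : ℕ} {S : Finset ℕ}
    (hst : Step 0 m A A' d S) (h : FlarbSeq (m + (n + 1)) (build (A ++ leaves m (n + 1)) nil) c) :
    ∃ c', c + d ≤ c' ∧ FlarbSeq (m + (n + 1) + 1)
      (build (A' ++ (leaves m 1 ++ [(chain (m + 1) n, m + (n + 1))])) nil) c' := by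
  set T := build (A ++ leaves m (n + 1)) nil with hT
  have hT2 : T = build (A ++ leaves m 1) (chain (m + 1) n) := by
    rw [hT, add_comm n 1, leaves_add, ← List.append_assoc, build_append]
    rfl
  have hspine : ∀ e ∈ A ++ leaves m 1, e.2 ∈ insert m S := by
    intro e he
    rcases List.mem_append.mp he with he | he
    · exact mem_insert_of_mem (hst.spine e he)
    · have := mem_leaves m 1 e he
      have h3 : e.2 = m := by omega
      rw [h3]; exact mem_insert_self _ _
  have hanch : Anchored T (insert m S) := by
    rw [hT2]
    refine ⟨?_, ?_, ?_⟩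
    · intro s hs
      rw [mem_nodes_build]
      rcases mem_insert.mp hs with rfl | hs
      · exact Or.inl ⟨(nil, s), List.mem_append_right _ (leaves_mem s 1 s le_rfl (by omega)),
          Or.inl rfl⟩
      · obtain ⟨e, he, h1⟩ := hst.sub s hs
        exact Or.inl ⟨e, List.mem_append_left _ he, h1⟩
    · intro x hx
      cases hA : A ++ leaves m 1 with
      | nil => simp [leaves_succ] at hA
      | cons e L =>
        rw [hA] at hx
        obtain ⟨a, y⟩ := e
        simp only [build, root?, Option.some.injEq] at hx
        rw [← hx]
        exact hspine (a, y) (by rw [hA]; simp)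
    · intro p s c' hr hc
      rcases rels_build _ _ p s c' hr with ⟨e, he, rfl⟩ | ⟨e, he, hr⟩ | hr
      · exact hspine e he
      · rcases List.mem_append.mp he with he | he
        · have hb := hst.labs e he c' (mem_nodes_of_rels _ _ _ _ hr).2
          rcases mem_insert.mp hc with rfl | hc
          · omega
          · exact mem_insert_of_mem (hst.closed e he p s c' hr hc)
        · rw [(mem_leaves m 1 e he).1] at hr
          simp [rels] at hr
      · have hb := rels_chain _ _ p s c' hr
        rcases mem_insert.mp hc with rfl | hc
        · omega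
        · have := hst.rng c' hc
          omega
  have hfl : flarb T (insert m S) (m + (n + 1)) =
      build (A' ++ (leaves m 1 ++ [(chain (m + 1) n, m + (n + 1))])) nil := by
    have h1 : decomp (insert (m + (n + 1)) (insert m S)) T =
        (A' ++ leaves m 1, chain (m + 1) n) := by
      rw [hT2, decomp_build _ _ _ (fun e he => mem_insert_of_mem (hspine e he)), openL_append,
        openL_leaves]
      have h2 : openL (insert (m + (n + 1)) (insert m S)) A = A' := by
        rw [← hst.opn]
        apply openL_congr
        intro e he x hx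
        have := hst.labs e he x hx
        rw [mem_insert, mem_insert]
        constructor
        · rintro (h | h | h)
          · omega
          · omega
          · exact h
        · exact fun h => Or.inr (Or.inr h)
      have h3 : decomp (insert (m + (n + 1)) (insert m S)) (chain (m + 1) n) =
          ([], chain (m + 1) n) := by
        apply decomp_hanging
        intro x hx
        have h4 : x = m + 1 := root_chain _ _ _ hx
        rw [mem_insert, mem_insert]
        rintro (h | h | h)
        · cases n with
          | zero => simp [chain_zero, root?] at hx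
          | succ n => omega
        · omega
        · have := hst.rng x h
          omega
      rw [h2, h3]
      simp
    simp [flarb, decomp, h1]
  refine ⟨c + cost T (flarb T (insert m S) (m + (n + 1))), ?_, ?_⟩
  · apply Nat.add_le_add_left
    refine le_trans hst.lost (le_trans ?_ (cost_ge _ _))
    apply card_le_card
    intro p hp
    obtain ⟨hp1, hp2⟩ := mem_sdiff.mp hp
    have hb := hst.ll p hp1
    rw [hfl, hT, lrel_build, lrel_build, LL_append, LL_append, LL_append, LL_leaves, LL_leaves,
      mem_sdiff]
    constructor
    · simp [hp1]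
    · simp only [lrel, union_empty, empty_union, mem_union]
      rintro (h | h)
      · exact hp2 h
      · simp only [LL, lrel_chain, union_empty] at h
        cases hc : chain (m + 1) n with
        | nil => simp [hc, lk] at h
        | node a y b =>
          simp only [hc, lk, mem_singleton] at h
          rw [h] at hb
          simp only at hb
          omega
  · rw [← hfl]
    exact FlarbSeq.succ h (insert m S) hanch

/-! ### The construction -/

/-- Number of flarbs of the `k`-th construction. -/
def N : ℕ → ℕ
  | 0 => 1
  | k + 1 => 2 * N k + 1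

/-- Lower bound for the cost of the `k`-th construction. -/
def W : ℕ → ℕ
  | 0 => 0
  | k + 1 => 2 * W k + (N k - 1)

theorem N_pos (k : ℕ) : 1 ≤ N k := by
  cases k with
  | zero => simp [N]
  | succ k => simp [N]

/-- The new part of the context. -/
def ctx (m n t : ℕ) : List (BT × ℕ) :=
  leaves m (min (t + 1) n) ++ [(chain (m + 1 + t) (n - 1 - t), m + n)]

theorem ctx_step (m n t : ℕ) (_hn : 1 ≤ n) :
    ∃ S, Step m (m + n + 1) (ctx m n t) (ctx m n (t + 1)) (if t + 1 < n then 1 else 0) S := by
  by_cases h : t + 1 < n
  · rw [if_pos h]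
    obtain ⟨n', hn'⟩ : ∃ n', n = n' + 1 + (t + 1) := ⟨n - (t + 1) - 1, by omega⟩
    have e1 : min (t + 1) n = t + 1 := by omega
    have e2 : min (t + 1 + 1) n = (t + 1) + 1 := by omega
    have e3 : n - 1 - t = n' + 1 := by omega
    have e4 : n - 1 - (t + 1) = n' := by omega
    have s1 := step_leaves m (t + 1)
    have s2 := step_chain (m + (t + 1)) n' (m + n) (by omega)
    have s3 := s1.append s2 (by omega) (by omega)
    have e5 : ctx m n t = leaves m (t + 1) ++ [(chain (m + (t + 1)) (n' + 1), m + n)] := by
      unfold ctx
      rw [e1, e3]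
      congr 4
      omega
    have e6 : ctx m n (t + 1) = leaves m (t + 1) ++
        [(nil, m + (t + 1)), (chain (m + (t + 1) + 1) n', m + n)] := by
      unfold ctx
      rw [e2, e4, leaves_add, List.append_assoc]
      congr 1
      rw [leaves_succ, leaves_zero]
      simp only [List.cons_append, List.nil_append]
      congr 4
      omega
    rw [e5, e6]
    rw [zero_add] at s3
    exact ⟨_, s3⟩
  · rw [if_neg h]
    have e1 : min (t + 1) n = n := by omega
    have e2 : min (t + 1 + 1) n = n := by omega
    have e3 : n - 1 - t = 0 := by omega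
    have e4 : n - 1 - (t + 1) = 0 := by omega
    have e5 : ctx m n t = leaves m (n + 1) := by
      unfold ctx
      rw [e1, e3, leaves_add, chain_zero, leaves_succ, leaves_zero]
    have e6 : ctx m n (t + 1) = leaves m (n + 1) := by
      unfold ctx
      rw [e2, e4, leaves_add, chain_zero, leaves_succ, leaves_zero]
    rw [e5, e6]
    exact ⟨_, (step_leaves m (n + 1))⟩

theorem main (k : ℕ) : ∀ (m : ℕ) (A : ℕ → List (BT × ℕ)) (D : ℕ → ℕ),
    (∀ t < N k, ∃ S, Step 0 m (A t) (A (t + 1)) (D t) S) →
    ∀ c, FlarbSeq m (build (A 0) nil) c →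
    ∃ c', c + W k + ∑ t ∈ range (N k), D t ≤ c' ∧
      FlarbSeq (m + N k) (build (A (N k) ++ leaves m (N k)) nil) c' := by
  induction k with
  | zero =>
    intro m A D hst c h
    obtain ⟨S, hS⟩ := hst 0 (by simp [N])
    obtain ⟨c', hc', h'⟩ := op_one hS h
    refine ⟨c', ?_, ?_⟩
    · simp only [N, W, sum_range_one]
      omega
    · exact h'
  | succ k ih =>
    intro m A D hst c h
    have hN := N_pos k
    have hN1 : N (k + 1) = N k + 1 + N k := by simp only [N]; omega
    obtain ⟨c1, hc1, h1⟩ := ih m A D (fun t ht => hst t (by omega)) c h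
    obtain ⟨n, hn⟩ : ∃ n, N k = n + 1 := ⟨N k - 1, by omega⟩
    obtain ⟨S, hS⟩ := hst (N k) (by omega)
    rw [hn] at h1
    rw [hn] at hS
    obtain ⟨c2, hc2, h2⟩ := op_two hS h1
    have hctx0 : leaves m 1 ++ [(chain (m + 1) n, m + (n + 1))] = ctx m (n + 1) 0 := by
      unfold ctx
      simp
    rw [hctx0] at h2
    obtain ⟨c3, hc3, h3⟩ := ih (m + (n + 1) + 1)
      (fun t => A (n + 1 + 1 + t) ++ ctx m (n + 1) t)
      (fun t => D (n + 1 + 1 + t) + (if t + 1 < n + 1 then 1 else 0))
      (by
        intro t ht
        obtain ⟨S1, hS1⟩ := hst (n + 1 + 1 + t) (by omega)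
        obtain ⟨S2, hS2⟩ := ctx_step m (n + 1) t (by omega)
        exact ⟨_, hS1.append hS2 (by omega) (by omega)⟩) c2 h2
    refine ⟨c3, ?_, ?_⟩
    · have hsum : ∑ t ∈ range (N (k + 1)), D t =
          ∑ t ∈ range (N k), D t + D (N k) + ∑ t ∈ range (N k), D (n + 1 + 1 + t) := by
        rw [hN1, sum_range_add, sum_range_succ, hn]
      have hind : ∑ t ∈ range (N k), (if t + 1 < n + 1 then 1 else 0) = n := by
        rw [hn, sum_range_succ]
        simp only [lt_irrefl, if_false, add_zero]
        rw [sum_congr rfl (g := fun _ => 1)]
        · simp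
        · intro t ht
          rw [mem_range] at ht
          rw [if_pos (by omega)]
      rw [sum_add_distrib, hind] at hc3
      rw [hsum]
      have hW : W (k + 1) = 2 * W k + n := by simp only [W, hn]; omega
      rw [hW]
      rw [hn] at hc1 hc3 ⊢
      omega
    · have e1 : m + (n + 1) + 1 + N k = m + N (k + 1) := by omega
      have e2 : (fun t => A (n + 1 + 1 + t) ++ ctx m (n + 1) t) (N k) ++
          leaves (m + (n + 1) + 1) (N k) = A (N (k + 1)) ++ leaves m (N (k + 1)) := by
        have e3 : ctx m (n + 1) (N k) = leaves m (n + 1 + 1) := by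
          unfold ctx
          have f1 : min (N k + 1) (n + 1) = n + 1 := by omega
          have f2 : n + 1 - 1 - N k = 0 := by omega
          rw [f1, f2, leaves_add m (n + 1) 1, chain_zero]
          rfl
        simp only [e3]
        rw [List.append_assoc]
        have e4 : n + 1 + 1 + N k = N (k + 1) := by omega
        have e5 : N (k + 1) = (n + 1 + 1) + N k := by omega
        rw [e4]
        congr 1
        rw [e5, leaves_add m (n + 1 + 1) (N k)]
        rfl
      rw [e2, e1] at h3
      exact h3

theorem exists_seq (k : ℕ) : ∃ T c, W k ≤ c ∧ FlarbSeq (N k) T c := by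
  obtain ⟨c, hc, h⟩ := main k 0 (fun _ => []) (fun _ => 0)
    (fun t _ => ⟨∅, step_nil 0 0⟩) 0 FlarbSeq.zero
  rw [zero_add] at h
  exact ⟨_, c, by simpa using hc, h⟩

theorem extend {n : ℕ} {T : BT} {c : ℕ} (h : FlarbSeq n T c) (j : ℕ) :
    ∃ T' c', c ≤ c' ∧ FlarbSeq (n + j) T' c' := by
  induction j with
  | zero => exact ⟨T, c, le_rfl, h⟩
  | succ j ih =>
    obtain ⟨T', c', hc, h'⟩ := ih
    refine ⟨_, _, ?_, FlarbSeq.succ h' T'.nodes ⟨Finset.Subset.refl _, ?_, ?_⟩⟩
    · omega
    · intro x hx
      cases T' with
      | nil => simp [root?] at hx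
      | node l y r =>
        simp only [root?, Option.some.injEq] at hx
        simp [nodes, hx]
    · intro p s c'' hr _
      exact (mem_nodes_of_rels _ _ _ _ hr).1

theorem N_eq (k : ℕ) : N k + 1 = 2 * 2 ^ k := by
  induction k with
  | zero => rfl
  | succ k ih => simp only [N, pow_succ]; omega

theorem W_eq (k : ℕ) : W k + 2 * 2 ^ k = k * 2 ^ k + 2 := by
  induction k with
  | zero => rfl
  | succ k ih =>
    have h1 := N_eq k
    have h2 := N_pos k
    have h3 : (k + 1) * 2 ^ (k + 1) = 2 * (k * 2 ^ k) + 2 * 2 ^ k := by ring
    simp only [W]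
    rw [h3, pow_succ]
    omega

/-- The total number of pointer changes of `n` flarbs, starting from the empty tree, is not
`O(n)`: it can be of order `n log n`. -/
theorem result :
    (∀ C : ℕ, ∃ (n : ℕ) (T : BT) (c : ℕ), FlarbSeq n T c ∧ C * n < c) ∧
    (∀ n : ℕ, ∃ (T : BT) (c : ℕ), FlarbSeq n T c ∧ n * Nat.log 2 n ≤ 4 * c + 12 * n) := by
  constructor
  · intro C
    obtain ⟨T, c, hc, h⟩ := exists_seq (2 * C + 2)
    refine ⟨_, T, c, h, ?_⟩
    have h1 := N_eq (2 * C + 2)
    have h2 := W_eq (2 * C + 2)
    have h3 : (2 * C + 2) * 2 ^ (2 * C + 2) = C * (2 * 2 ^ (2 * C + 2)) + 2 * 2 ^ (2 * C + 2) := by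
      ring
    have h4 : C * N (2 * C + 2) ≤ C * (2 * 2 ^ (2 * C + 2)) := by
      apply Nat.mul_le_mul_left
      omega
    omega
  · intro n
    rcases Nat.eq_zero_or_pos n with rfl | hn
    · exact ⟨nil, 0, FlarbSeq.zero, by simp⟩
    · set L := Nat.log 2 (n + 1) with hL
      have hL1 : 1 ≤ L := by
        rw [hL]
        exact Nat.le_log_of_pow_le (by norm_num) (by omega)
      obtain ⟨k, hk⟩ : ∃ k, L = k + 1 := ⟨L - 1, by omega⟩
      have h1 : 2 ^ L ≤ n + 1 := Nat.pow_log_le_self 2 (by omega)
      have h2 : n + 1 < 2 ^ (L + 1) := Nat.lt_pow_succ_log_self (by norm_num) _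
      have h3 := N_eq k
      have h4 := W_eq k
      rw [hk] at h1 h2
      have p1 : 2 ^ (k + 1) = 2 * 2 ^ k := by ring
      have p2 : 2 ^ (k + 1 + 1) = 4 * 2 ^ k := by ring
      rw [p1] at h1
      rw [p2] at h2
      obtain ⟨T, c, hc, h⟩ := exists_seq k
      obtain ⟨j, hj⟩ : ∃ j, n = N k + j := ⟨n - N k, by omega⟩
      obtain ⟨T', c', hc', h'⟩ := extend h j
      rw [← hj] at h'
      refine ⟨T', c', h', ?_⟩
      have hlog : Nat.log 2 n ≤ k + 1 := by
        rw [← hk, hL]
        exact Nat.log_mono_right (by omega)
      have h5 : n * Nat.log 2 n ≤ (4 * 2 ^ k) * (k + 1) :=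
        Nat.mul_le_mul (by omega) hlog
      have h6 : (4 * 2 ^ k) * (k + 1) = 4 * (k * 2 ^ k) + 4 * 2 ^ k := by ring
      have h7 : 1 ≤ 2 ^ k := Nat.one_le_two_pow
      omega

end Pool.Agent.Results.MP_5c307f_lc.FlarbSuperlinear
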